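import Pool.Agent.N671.DA.Tup
import Pool.Agent.N701.MSC.Iso
import Pool.Agent.Results.MP_47914d_nt.GrowingDegreeIsogenies

/-!
# The modular Schanuel conjecture at the best approximation vectors of systems of linear forms

Let `j` be the modular invariant, `u_1, …, u_k` points of the upper half-plane for which the numbers `n_i = j(u_i)` are
integers, and `z_i = (a_i u_i + b_i) / (c_i u_i + d_i)` any points equivalent to them under `GL_2^+(ℚ)`. The numbers `j(z_i)`
are algebraic; unless `z_i` is a CM point or two of the points are equivalent, the modular Schanuel conjecture predicts that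
`z_1, …, z_k` are algebraically independent. Let `w_1, …, w_q` be complex numbers. We call `(n_1, …, n_k)` good if for all
these `z_1, …, z_k` (there is no bound for the degrees of the isogenies) every relation of degree at most `δ` between
`2 π i, w_1, …, w_q, z_1, …, z_k` over a number field of degree at most `δ` (of any height) is trivial: the polynomial is zero
after the substitution of `2 π i, w_1, …, w_q`.

Let `α` be a real matrix with `k` rows and `m` columns, `β` in `ℝ^m` and `τ > 0`. We consider the integer vectors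
`v = (v_1, …, v_k)` with `‖(v α)_j - β_j‖ ≤ c |v| ^ (-τ)` for `j = 1, …, m`, `‖x‖` the distance to the nearest integer and
`|v|` the maximum norm; for `β = 0`, `c = 1` and `τ = k / m` they include all best approximation vectors of the system of
the linear forms `v α`, by the theorem of Minkowski. We show that there is a number `C`, depending only on `k` and `q`, such
that for all `δ`, `w` and all `α` outside a set of Hausdorff dimension at most
`(k - 1) m + (m + k - 1 / (δ + 2)^C) / (1 + τ)`, less than `k m` for `τ = k / m`, and so for almost all `α`, all the tuples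
`(± v_1, …, ± v_k)`, `v` large of this kind, are good.

The best approximation vectors are a very sparse sequence, about `log T` vectors of norm at most `T`, and so this does not
follow from the size of the exceptional set, which is only smaller than `T^k` by a factor `T^c` with a small positive `c`.

Proof. (1) At most `C T^(k - 1 / (δ + 2)^C)` of the tuples of nonzero integers in `[-T, T]^k` are not good (`count`). In the
starting theorem `IsogenyClasses` of this problem, which is similar, the degree is fixed and there are no constants `2 π i`,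
`w` besides the coefficients; the starting theorem `GrowingDegreeIsogenies` is about tuples of integers in a short interval.
The theorem `Pool.Agent.R351.GD.jtuples` of the starting library is about relations between the numbers `u_i` (and
`j'(u_i)`, `j''(u_i)`); a fractional linear substitution changes the degree by a bounded factor only
(`Pool.Agent.N701.MSC.isotuples`; the substitution is that of `Pool.Agent.R351.GD.winI_exp`). (2) The matrices `α` with
`‖(v α)_j - β_j‖ ≤ c |v| ^ (-τ)` form neighbourhoods of parallel affine subspaces, covered by cubes of side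
`|v| ^ (-1 - τ)` (`Pool.Agent.N671.DA`, helper671).
-/

set_option autoImplicit false

namespace Pool.Agent.Results.MP_47914d_nt.BestApproximations

open Pool.Agent.N671.DA (Near approx_tuples)
open Pool.Agent.Results.MP_47914d_nt.GrowingDegreeIsogenies (J_eq Isogenous constants constants_eq generic)

/-- Every relation of degree at most `δ` between `2 π i, w_1, …, w_q, z_1, …, z_k` over a number field of degree at most
`δ` is trivial. -/
def Free {q k : ℕ} (δ : ℕ) (w : Fin q → ℂ) (z : Fin k → ℂ) : Prop :=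
  ∀ K : IntermediateField ℚ ℂ, FiniteDimensional ℚ K → Module.finrank ℚ K ≤ δ →
    ∀ P : MvPolynomial (Option (Fin q) ⊕ Fin k) K, P.totalDegree ≤ δ →
      MvPolynomial.aeval (Sum.elim (constants w) z) P = 0 → MvPolynomial.aeval (generic (k := k) w) P = 0

/-- The numbers `z_1, …, z_k` are free for all `z_i` isogenous to points with the invariants `n_i`. -/
def Good {q k : ℕ} (δ : ℕ) (w : Fin q → ℂ) (n : Fin k → ℤ) : Prop :=
  ∀ z : Fin k → ℂ, (∀ i, Isogenous (n i) (z i)) → Free δ w z

lemma of_not_good {q k : ℕ} {δ : ℕ} {w : Fin q → ℂ} {n : Fin k → ℤ} (h : ¬ Good δ w n) :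
    ∃ v : Fin k → UpperHalfPlane, (∀ i, Pool.Agent.TH21.MS.jj (v i) = (n i : ℂ)) ∧ ∃ z : Fin k → ℂ,
      (∀ i, ∃ a b c d : ℚ, a * d - b * c ≠ 0 ∧ z i = ((a : ℂ) * v i + b) / ((c : ℂ) * v i + d)) ∧
      Pool.Agent.R351.GD.RelK δ (Pool.Agent.Y120.K.wo w) z := by
  unfold Good Free at h
  push Not at h
  obtain ⟨z, hz, K, hK, hKd, P, hP, hP0, hne⟩ := h
  choose v hv hvn a b c d hdet hzv using hz
  refine ⟨fun i => ⟨v i, hv i⟩, fun i => ?_, z, fun i => ⟨a i, b i, c i, d i, (hdet i).ne', hzv i⟩,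
    K, hK, hKd, P, hP, ?_, ?_⟩
  · have h1 := hvn i
    rw [J_eq] at h1
    exact h1
  · rw [← constants_eq]
    exact hP0
  · intro h0
    apply hne
    unfold generic
    rw [constants_eq]
    exact h0

/-- the number of the tuples which are not good -/
theorem count (k q : ℕ) : ∃ C : ℕ, ∀ (δ : ℕ) (w : Fin q → ℂ) (T : ℕ), 1 ≤ T →
    {n : Fin k → ℤ | (∀ i, n i ≠ 0 ∧ |n i| ≤ (T : ℤ)) ∧ ¬ Good δ w n}.Finite ∧
    (({n : Fin k → ℤ | (∀ i, n i ≠ 0 ∧ |n i| ≤ (T : ℤ)) ∧ ¬ Good δ w n}.ncard : ℕ) : ℝ) ≤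
      C * (T : ℝ) ^ ((k : ℝ) - 1 / ((δ : ℝ) + 2) ^ C) := by
  classical
  obtain ⟨C, hC⟩ := Pool.Agent.N701.MSC.isotuples k q
  refine ⟨C, fun δ w T hT => ?_⟩
  have h1 := hC δ w T hT
  have hsub : {n : Fin k → ℤ | (∀ i, n i ≠ 0 ∧ |n i| ≤ (T : ℤ)) ∧ ¬ Good δ w n} ⊆
      (((Fintype.piFinset fun _ : Fin k => Finset.Icc (-(T : ℤ)) T).filter fun n => (∀ i, n i ≠ 0) ∧
      ∃ v : Fin k → UpperHalfPlane, (∀ i, Pool.Agent.TH21.MS.jj (v i) = (n i : ℂ)) ∧ ∃ z : Fin k → ℂ,
        (∀ i, ∃ a b c d : ℚ, a * d - b * c ≠ 0 ∧ z i = ((a : ℂ) * v i + b) / ((c : ℂ) * v i + d)) ∧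
        Pool.Agent.R351.GD.RelK δ (Pool.Agent.Y120.K.wo w) z : Finset (Fin k → ℤ)) : Set (Fin k → ℤ)) := by
    rintro n ⟨hn, hbad⟩
    refine Finset.mem_coe.2 (Finset.mem_filter.2 ⟨?_, fun i => (hn i).1, of_not_good hbad⟩)
    rw [Fintype.mem_piFinset]
    intro i
    exact Finset.mem_Icc.2 (abs_le.1 (hn i).2)
  refine ⟨(Finset.finite_toSet _).subset hsub, le_trans ?_ h1⟩
  have h2 := Set.ncard_le_ncard hsub (Finset.finite_toSet _)
  rw [Set.ncard_coe_finset] at h2
  exact_mod_cast h2

/-- **The modular Schanuel conjecture at the best approximation vectors.** For all `k ≥ 1` and `q` there is `C` such that for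
all `δ`, `w_1, …, w_q ∈ ℂ`, `β ∈ ℝ^m` and `τ > 0`, for all real matrices `α` with `k` rows and `m` columns outside a set of
Hausdorff dimension at most `(k - 1) m + (m + k - 1 / (δ + 2)^C) / (1 + τ)` and all `c`, for all large integer vectors `v`
with `‖(v α)_j - β_j‖ ≤ c |v| ^ (-τ)` for all `j` all the tuples `(± v_1, …, ± v_k)` are good. -/
theorem result (k q : ℕ) (hk : 1 ≤ k) : ∃ C : ℕ, ∀ (δ : ℕ) (w : Fin q → ℂ) (m : ℕ) (β : Fin m → ℝ) (τ : ℝ), 0 < τ →
    ∃ E : Set (Fin k × Fin m → ℝ),
      dimH E ≤ ENNReal.ofReal (((k : ℝ) - 1) * m + (m + ((k : ℝ) - 1 / ((δ : ℝ) + 2) ^ C)) / (1 + τ)) ∧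
      ∀ α, α ∉ E → ∀ c : ℝ, ∃ Q : ℝ, ∀ v : Fin k → ℤ, Q ≤ ‖v‖ → Near α β v (c * ‖v‖ ^ (-τ)) →
        ∀ t : Fin k → ℤ, (∀ i, |t i| = |v i|) → Good δ w t := by
  classical
  obtain ⟨C, hC⟩ := count k q
  refine ⟨C, fun δ w m β τ hτ => ?_⟩
  have hc1 : 1 / ((δ : ℝ) + 2) ^ C ≤ 1 := by
    rw [div_le_one (by positivity)]
    have : (0 : ℝ) ≤ δ := Nat.cast_nonneg δ
    exact one_le_pow₀ (by linarith)
  obtain ⟨W, hW⟩ : ∃ W : Set (Fin k → ℕ),
    W = {u | ∃ t : Fin k → ℤ, (∀ i, |t i| = u i) ∧ ¬ Good δ w t} := ⟨_, rfl⟩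
  obtain ⟨E, hE, hE2⟩ := approx_tuples hk W (c₀ := 1 / ((δ : ℝ) + 2) ^ C) (C₀ := C) hc1 (fun T hT => by
    obtain ⟨hfin, hcard⟩ := hC δ w T hT
    refine le_trans ?_ hcard
    choose! g hg1 hg2 using fun (u : Fin k → ℕ) (hu : u ∈ W) => (by rw [hW] at hu; exact hu :
      ∃ t : Fin k → ℤ, (∀ i, |t i| = u i) ∧ ¬ Good δ w t)
    have h1 : ({u : Fin k → ℕ | (∀ i, 2 ≤ u i ∧ u i ≤ T) ∧ u ∈ W}.ncard) ≤
        ({n : Fin k → ℤ | (∀ i, n i ≠ 0 ∧ |n i| ≤ (T : ℤ)) ∧ ¬ Good δ w n}.ncard) := by
      refine Set.ncard_le_ncard_of_injOn g ?_ ?_ hfin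
      · rintro u ⟨hu1, hu2⟩
        refine ⟨fun i => ⟨?_, ?_⟩, hg2 u hu2⟩
        · intro h0
          have h3 := hg1 u hu2 i
          rw [h0, abs_zero] at h3
          have h4 := (hu1 i).1
          have h5 : u i = 0 := by exact_mod_cast h3.symm
          omega
        · rw [hg1 u hu2 i]
          exact_mod_cast (hu1 i).2
      · intro u hu u' hu' h
        funext i
        have h3 := hg1 u hu.2 i
        have h4 := hg1 u' hu'.2 i
        rw [h, h4] at h3
        exact_mod_cast h3.symm
    exact_mod_cast h1) β hτ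
  refine ⟨E, hE, fun α hα c => ?_⟩
  obtain ⟨Q, hQ⟩ := hE2 α hα c
  refine ⟨Q, fun v hv hnear t ht => ?_⟩
  have h2 := (hQ v hv hnear).2
  by_contra hbad
  apply h2
  rw [hW]
  refine ⟨t, fun i => ?_, hbad⟩
  rw [ht i, Int.abs_eq_natAbs]

end Pool.Agent.Results.MP_47914d_nt.BestApproximations
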