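import Pool.Agent.N113.SK.J

/-!
# The modular Schanuel conjecture is equivalent to a statement on `ℚ`-linear relations

Let `z = (z_i)` be a finite tuple of points of the upper half-plane, arbitrary: it may contain CM points
and points in the same orbit of `GL₂⁺(ℚ)`. We consider the additive maps `D : ℂ → ℂ` (`ℚ`-linear, with
values in `ℂ`) with `D 1 = 0` which satisfy the rules of differentiation for the polynomial relations
with rational coefficients between two points `z_i`, `z_k` of **one** orbit, and between the two values
`j(z_i)`, `j(z_k)` at two points of one orbit. These relations are the equation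
`z_k = (a z_i + b) / (c z_i + d)` and the modular equations, and the minimal polynomials of the algebraic
ones among the numbers. There is no rule for products of numbers belonging to different orbits, nor for
products of a point and its value `j(z)`: the only relations between different orbits (and between points and
values) which `D` takes into account are the `ℚ`-linear relations between the numbers `1`, `z_i`, `j(z_i)`.

Let `Der j z` be the space of the vectors `(D (z_i), D (j(z_i)))`, for all these maps `D`. It contains the
vectors given by the derivations of `ℂ`, so that its dimension is at least the transcendence degree of the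
field generated by the `z_i` and `j(z_i)`, and it can be much larger.

We prove: the modular Schanuel conjecture holds if and only if the dimension of `Der j z` is at least the
number of the orbits which contain a point `z_i` which is not CM, for all finite tuples `z`. More
precisely, without any hypothesis, for every tuple `z` and every integer `d`: the transcendence degree is
at least the number of orbits plus `d` for all tuples containing `z` if and only if the dimension is at least
the number of orbits plus `d` for all tuples containing `z` (the infima of the two defects over all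
finite extensions of `z` are equal).

The proof represents all polynomial relations between the coordinates by linear relations between new
points of the upper half-plane: for `u` in the upper half-plane and a rational number `c`,
`b = -1 / u` and `b' = -1 / (u + c)` are equivalent to `u`, `e = ± (b' - b)` is a new point, and `-1 / e`
is a rational combination of `u` and `u²`; if `D` vanishes at the coordinates of the given tuple, one
new orbit gives at most one new dimension, because `D e` is determined by linearity.
-/

set_option autoImplicit false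

open UpperHalfPlane ModularForm
open Pool.Agent.N113.SK (Eqv CM Der)

namespace Pool.Agent.Results.MP_47914d_nt.LinearRelations

/-- The modular invariant. -/
noncomputable def j (z : ℍ) : ℂ := E₄ z ^ 3 / discriminant z

/-- The `GL₂⁺(ℚ)`-orbit of a point. -/
def orbit (z : ℍ) : Set ℍ := {w | Eqv z w}

/-- The number of the orbits which contain one of the points `z i` which is not a CM point. -/
noncomputable def orbits {ι : Type} (z : ι → ℍ) : ℕ := {c | ∃ i, ¬ CM (z i) ∧ c = orbit (z i)}.ncard

/-- The numbers `z i` and `j (z i)`. -/
noncomputable def coordinate {ι : Type} (z : ι → ℍ) : ι ⊕ ι → ℂ :=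
  Sum.elim (fun i => (z i : ℂ)) (fun i => j (z i))

/-- The modular Schanuel conjecture. -/
def ModularSchanuelConjecture : Prop := ∀ (n : ℕ) (z : Fin n → ℍ),
  (∀ i, ¬ CM (z i)) → (∀ i k, i ≠ k → ¬ Eqv (z i) (z k)) →
    ∃ w : Fin n → ℂ, (∀ m, w m ∈ Set.range (fun i => (z i : ℂ)) ∪ Set.range (fun i => j (z i))) ∧
      AlgebraicIndependent ℚ w

theorem orbits_eq (A : Pool.Agent.N113.SK.Tup) : orbits A.z = Pool.Agent.N113.SK.rk A := by
  have h1 : {c | ∃ i, ¬ CM (A.z i) ∧ c = orbit (A.z i)} =
      (fun q : Quotient Pool.Agent.N113.SK.eqvSetoid => {w : ℍ | q = ⟦w⟧}) ''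
        Pool.Agent.N113.SK.cls A := by
    have h2 : ∀ z : ℍ, orbit z = {w : ℍ | (⟦z⟧ : Quotient Pool.Agent.N113.SK.eqvSetoid) = ⟦w⟧} :=
      fun z => Set.ext fun w => ⟨fun h => Quotient.sound h, fun h => Quotient.exact h⟩
    ext c
    constructor
    · rintro ⟨i, hi, rfl⟩
      exact ⟨_, ⟨i, hi, rfl⟩, (h2 _).symm⟩
    · rintro ⟨_, ⟨i, hi, rfl⟩, rfl⟩
      exact ⟨i, hi, (h2 _).symm⟩
  unfold orbits Pool.Agent.N113.SK.rk
  rw [h1]
  refine Set.ncard_image_of_injective _ ?_
  intro p q h
  induction p using Quotient.inductionOn with
  | h z =>
    have h3 : z ∈ (fun q : Quotient Pool.Agent.N113.SK.eqvSetoid => {w : ℍ | q = ⟦w⟧}) q := by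
      rw [← h]
      rfl
    exact h3.symm

/-- **The modular Schanuel conjecture is equivalent to a statement on `ℚ`-linear relations**; and, for
every finite tuple of points, the smallest defects (over all extensions of the tuple) for the
transcendence degree and for the dimension of the space of vectors are equal. -/
theorem result :
    (ModularSchanuelConjecture ↔
      ∀ (ι : Type) [Fintype ι] (z : ι → ℍ), orbits z ≤ Module.finrank ℂ (Der j z)) ∧
    ∀ (ι : Type) [Fintype ι] (z : ι → ℍ) (d : ℤ),
      (∀ (κ : Type) [Fintype κ] (y : κ → ℍ), Set.range z ⊆ Set.range y →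
        ∃ s : Finset (κ ⊕ κ), AlgebraicIndependent ℚ (fun i : s => coordinate y i) ∧
          (orbits y : ℤ) + d ≤ s.card) ↔
      (∀ (κ : Type) [Fintype κ] (y : κ → ℍ), Set.range z ⊆ Set.range y →
        (orbits y : ℤ) + d ≤ Module.finrank ℂ (Der j y)) := by
  have hf : Pool.Agent.N113.SK.Fn j := Pool.Agent.N113.SK.fn_jj
  have hS : ModularSchanuelConjecture ↔ Pool.Agent.N113.SK.SCH j := by
    constructor
    · intro h n z h1 h2
      obtain ⟨w, h3, h4⟩ := h n z h1 h2
      refine ⟨w, fun m => ?_, h4⟩
      rcases h3 m with ⟨i, hi⟩ | ⟨i, hi⟩
      · exact ⟨Sum.inl i, hi.symm⟩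
      · exact ⟨Sum.inr i, hi.symm⟩
    · intro h n z h1 h2
      obtain ⟨w, h3, h4⟩ := h n z h1 h2
      refine ⟨w, fun m => ?_, h4⟩
      obtain ⟨i | i, hi⟩ := h3 m
      · exact Or.inl ⟨i, hi.symm⟩
      · exact Or.inr ⟨i, hi.symm⟩
  refine ⟨?_, ?_⟩
  · rw [hS]
    constructor
    · intro h ι _ z
      have h1 := Pool.Agent.N113.SK.rk_le (Pool.Agent.N113.SK.lin_of_sch h) ⟨ι, z⟩
      rw [← orbits_eq] at h1
      exact h1
    · intro h
      refine Pool.Agent.N113.SK.sch_of_rk hf fun C => ?_
      rw [← orbits_eq]
      exact h C.κ C.z
  · intro ι _ z d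
    have hsub : ∀ B : Pool.Agent.N113.SK.Tup,
        Pool.Agent.N113.SK.Sub ⟨ι, z⟩ B ↔ Set.range z ⊆ Set.range B.z := by
      intro B
      constructor
      · rintro ⟨g, hg⟩ _ ⟨i, rfl⟩
        exact ⟨g i, hg i⟩
      · intro h
        choose g hg using fun i => h ⟨i, rfl⟩
        exact ⟨g, hg⟩
    have h1 := Pool.Agent.N113.SK.local_iff hf ⟨ι, z⟩ d
    constructor
    · intro h κ _ y hy
      have h2 := h1.1 (fun B hB => by
        rw [← orbits_eq]
        exact h B.κ B.z ((hsub B).1 hB)) ⟨κ, y⟩ ((hsub ⟨κ, y⟩).2 hy)
      rw [← orbits_eq] at h2
      exact h2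
    · intro h κ _ y hy
      have h2 := h1.2 (fun B hB => by
        rw [← orbits_eq]
        exact h B.κ B.z ((hsub B).1 hB)) ⟨κ, y⟩ ((hsub ⟨κ, y⟩).2 hy)
      rw [← orbits_eq] at h2
      exact h2

end Pool.Agent.Results.MP_47914d_nt.LinearRelations
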