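import Pool.Agent.N733.TG.M
import Pool.Agent.Results.MP_47914d_nt.IsogenyClasses

/-!
# The modular Schanuel conjecture at the values of multiplicative functions

Let `F_1, …, F_k` be positive multiplicative functions of at most polynomial growth such that `F_i p ≤ M p` for the large
primes `p`, with different values at different large primes; for example Euler's function or the sum of the divisors. Let
`w_i` be points of the upper half-plane with `j(w_i) = ± F_i(m_i)` (any signs), and let `z_i` be ANY points equivalent to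
`w_i` under `GL_2^+(ℚ)`. For all tuples `m ∈ [1, N]^k` but `N^k / (log N)^U` the numbers `z_1, …, z_k` do not satisfy any
polynomial relation of degree at most `δ` with coefficients in a given `ℚ`-vector space `V` of complex numbers of dimension
at most `D`, for all signs and all `z_i`. How large `N` has to be does not depend on `V`.

The starting theorem `IsogenyClasses` of this problem says that only `O(T^(k-c))` of the tuples of integers `t` with
`|t_i| ≤ T` are exceptional. The tuples `(F_1(m_1), …, F_k(m_k))` form a thin set and are taken with very large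
multiplicities, and so this says nothing about them: one exceptional tuple could be the value at a positive proportion of the
`m`, if the multiplicities were not controlled.

Proof. Write `m_i = u v` where `u` is composed of the primes `≤ z = N^(1 / J)`, `J` about `log log N`. For most `m` one has
`u ≤ N^η`, and `v` is a product of at most `J` different primes. So the value `F_i(v)` is taken at most `(1 + τ)^J` times, `τ`
its number of divisors, which is at most `N^o(1)` on average, even in mean square: and the exceptional set has a power saving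
(`Pool.Agent.N733.TG.keep_tuples2`, helper733).
-/

set_option autoImplicit false

namespace Pool.Agent.Results.MP_47914d_nt.MultiplicativeValues

open Pool.Agent.N733.TG (LM lm_totient lm_sigma keep_tuples2)
open Pool.Agent.Results.MP_47914d_nt.IsogenyClasses (Exceptional)

/-- **The modular Schanuel conjecture at the values of multiplicative functions.** Let `F_1, …, F_k` be multiplicative and
positive, of at most polynomial growth, with `F_i p ≤ M p` at the large primes, and injective there. For all `δ`, `D`, `U`,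
all large `N` and every `ℚ`-subspace `V` of `ℂ` of dimension at most `D`: for all `m ∈ [1, N]^k` but `N^k / (log N)^U`, NO
tuple of integers `t` with `|t_i| = F_i(m_i)` is exceptional, that is, no points `z_i` in the isogeny classes of the points
with `j(w_i) = t_i` satisfy a relation of degree at most `δ` with coefficients in `V`. Euler's function and the sum of the
divisors are examples of such functions. -/
theorem result :
    (∀ (k : ℕ) (F : Fin k → ℕ → ℕ), 1 ≤ k → (∀ i, LM (F i)) → ∀ δ D U : ℕ, ∃ N₀ : ℕ, ∀ N : ℕ, N₀ ≤ N →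
      ∀ (V : Submodule ℚ ℂ) [Module.Finite ℚ V], Module.finrank ℚ V ≤ D →
      ({m : Fin k → ℕ | (∀ i, 1 ≤ m i ∧ m i ≤ N) ∧
        ¬ ∀ t : Fin k → ℤ, (∀ i, |t i| = F i (m i)) → ¬ Exceptional δ V t}.ncard : ℝ) ≤
        (N : ℝ) ^ k / Real.log N ^ U) ∧
    (LM Nat.totient ∧ LM (fun m => ∑ d ∈ m.divisors, d)) := by
  classical
  refine ⟨fun k F hk hF δ D U => ?_, lm_totient, lm_sigma⟩
  obtain ⟨c, C, hc, hC, hcount⟩ := Pool.Agent.Results.MP_47914d_nt.IsogenyClasses.result k δ D
  obtain ⟨c', hc'⟩ : ∃ c' : ℝ, c' = min c 1 := ⟨_, rfl⟩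
  have hc'0 : 0 < c' := by rw [hc']; exact lt_min hc one_pos
  have hc'c : c' ≤ c := by rw [hc']; exact min_le_left _ _
  have hc'1 : c' ≤ 1 := by rw [hc']; exact min_le_right _ _
  obtain ⟨N₀, hN₀⟩ := keep_tuples2 hk hF hc'0 U (C * (k * 2))
  refine ⟨max N₀ 1, fun N hN V _ hV => ?_⟩
  refine le_trans ?_ (hN₀ N (le_trans (le_max_left _ _) hN)
    {w : Fin k → ℕ | ∃ t : Fin k → ℤ, (∀ i, |t i| = w i) ∧ Exceptional δ V t} fun X hX => ?_)
  · have hfin : {m : Fin k → ℕ | (∀ i, 1 ≤ m i ∧ m i ≤ N) ∧ ¬ ((∀ i, 2 ≤ F i (m i)) ∧ (fun i => F i (m i)) ∉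
        {w : Fin k → ℕ | ∃ t : Fin k → ℤ, (∀ i, |t i| = w i) ∧ Exceptional δ V t})}.Finite := by
      apply (Set.Finite.pi' fun _ : Fin k => Set.finite_Icc 1 N).subset
      intro m hm i
      exact hm.1 i
    have h2 : {m : Fin k → ℕ | (∀ i, 1 ≤ m i ∧ m i ≤ N) ∧
        ¬ ∀ t : Fin k → ℤ, (∀ i, |t i| = F i (m i)) → ¬ Exceptional δ V t} ⊆
        {m : Fin k → ℕ | (∀ i, 1 ≤ m i ∧ m i ≤ N) ∧ ¬ ((∀ i, 2 ≤ F i (m i)) ∧ (fun i => F i (m i)) ∉
        {w : Fin k → ℕ | ∃ t : Fin k → ℤ, (∀ i, |t i| = w i) ∧ Exceptional δ V t})} := by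
      rintro m ⟨h3, h4⟩
      refine ⟨h3, ?_⟩
      rintro ⟨-, h5⟩
      apply h4
      intro t ht hE
      exact h5 ⟨t, ht, hE⟩
    exact_mod_cast Set.ncard_le_ncard h2 hfin
  · -- the exceptional tuples of natural numbers
    have hX1 : (1 : ℝ) ≤ X := by exact_mod_cast hX
    have hX0 : (0 : ℝ) < X := by linarith
    have hfin : {w : Fin k → ℕ | (∀ i, 2 ≤ w i ∧ w i ≤ X) ∧ w ∈
        {w : Fin k → ℕ | ∃ t : Fin k → ℤ, (∀ i, |t i| = w i) ∧ Exceptional δ V t}}.Finite := by
      apply (Set.Finite.pi' fun _ : Fin k => Set.finite_Icc 2 X).subset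
      intro m hm i
      exact hm.1 i
    choose! g hg1 hg2 using fun (w : Fin k → ℕ) (hw : w ∈
      {w : Fin k → ℕ | ∃ t : Fin k → ℤ, (∀ i, |t i| = w i) ∧ Exceptional δ V t}) => hw
    have hinj : Set.InjOn g (hfin.toFinset : Set (Fin k → ℕ)) := by
      intro w hw w' hw' h
      rw [Set.Finite.coe_toFinset] at hw hw'
      funext i
      have h1 := hg1 w hw.2 i
      have h2 := hg1 w' hw'.2 i
      rw [h, h2] at h1
      exact_mod_cast h1.symm
    have h1 := hcount V hV (fun _ => 0) X hX (hfin.toFinset.image g) (by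
      intro t ht
      rw [Finset.mem_image] at ht
      obtain ⟨w, hw, rfl⟩ := ht
      rw [Set.Finite.mem_toFinset] at hw
      refine ⟨fun i => ?_, hg2 w hw.2⟩
      rw [hg1 w hw.2 i]
      have := hw.1 i
      push_cast
      constructor
      · have : 0 < w i := by omega
        exact_mod_cast this
      · rw [zero_add]
        exact_mod_cast this.2)
    rw [Finset.card_image_of_injOn hinj, ← Set.ncard_eq_toFinset_card _ hfin] at h1
    refine h1.trans ?_
    have h2 : ∀ i : Fin k, (1 + (X : ℝ) / (((0 : ℕ) : ℝ) + X) ^ c) ≤ 2 * (X : ℝ) ^ (1 - c') := by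
      intro i
      have h3 : (1 : ℝ) ≤ (X : ℝ) ^ (1 - c') := Real.one_le_rpow hX1 (by linarith)
      have h4 : (X : ℝ) / (((0 : ℕ) : ℝ) + X) ^ c ≤ (X : ℝ) ^ (1 - c') := by
        rw [Nat.cast_zero, zero_add]
        calc (X : ℝ) / (X : ℝ) ^ c = (X : ℝ) ^ (1 - c) := by
              rw [Real.rpow_sub hX0, Real.rpow_one]
          _ ≤ _ := Real.rpow_le_rpow_of_exponent_le hX1 (by linarith)
      linarith
    have h5 : (∑ _i : Fin k, (1 + (X : ℝ) / (((0 : ℕ) : ℝ) + X) ^ c)) ≤ k * (2 * (X : ℝ) ^ (1 - c')) := by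
      refine (Finset.sum_le_sum fun i _ => h2 i).trans ?_
      rw [Finset.sum_const, Finset.card_univ, Fintype.card_fin, nsmul_eq_mul]
    calc C * (X : ℝ) ^ (k - 1) * ∑ _i : Fin k, (1 + (X : ℝ) / (((0 : ℕ) : ℝ) + X) ^ c)
        ≤ C * (X : ℝ) ^ (k - 1) * (k * (2 * (X : ℝ) ^ (1 - c'))) := by gcongr
      _ = C * (k * 2) * ((X : ℝ) ^ ((k : ℝ) - 1) * (X : ℝ) ^ (1 - c')) := by
          rw [← Real.rpow_natCast (X : ℝ) (k - 1), Nat.cast_sub hk, Nat.cast_one]
          ring
      _ = C * (k * 2) * (X : ℝ) ^ ((k : ℝ) - c') := by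
          rw [← Real.rpow_add hX0]
          congr 2
          ring

end Pool.Agent.Results.MP_47914d_nt.MultiplicativeValues
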