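import Mathlib
import Pool.Agent.X255.RH.Main
import Pool.Agent.Y771.JQ.Main

/-!
# The modular Schanuel conjecture at all roots in the upper half-plane of almost all integral polynomials

Let `z_1, …, z_n` be algebraic points of the upper half-plane which are not CM and pairwise inequivalent under `GL_2^+(ℚ)`. The modular Schanuel
conjecture says that `j(z_1), …, j(z_n)` are algebraically independent; the period conjectures predict for most tuples that the `4 n` numbers
`j(z_i)`, `j'(z_i)`, `j''(z_i)`, `exp(2 π i z_i)` are algebraically independent.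

We consider all the roots in the upper half-plane of an integral polynomial of degree `g`; all algebraic points of degree `g` are of this kind. For
almost all polynomials with coefficients at most `T` the four numbers at ALL these roots satisfy together no algebraic relation over number
fields whose degree and whose field degree is at most `ω(T)` and whose height is at most `T ^ ω(T)`, where `ω(T) → ∞`; the coefficients of the
relations may contain arbitrary given complex numbers `ξ_0, ξ_1, …`, for instance the powers of `π`.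

The proof is an application of `Pool.Agent.X255.RH.main_all` (values of algebraically independent functions at the roots of almost all
polynomials) to the functions `exp(2 π i z)`, `j(z)`, `j'(z)`, `j''(z)`, which are algebraically independent over `ℂ(z)` (Mahler;
`Pool.Agent.Y771`).
-/

set_option autoImplicit false

open Polynomial Filter Topology NumberField

namespace Pool.Agent.Results.MP_47914d_nt.PointsAtAllRoots

/-- The normalised Eisenstein series of weight `4` as a function of `q = exp(2 π i z)`. -/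
noncomputable def E4 (q : ℂ) : ℂ := 1 + 240 * ∑' m : ℕ, ((ArithmeticFunction.sigma 3 (m + 1) : ℕ) : ℂ) * q ^ (m + 1)

/-- The normalised Eisenstein series of weight `6` as a function of `q = exp(2 π i z)`. -/
noncomputable def E6 (q : ℂ) : ℂ := 1 - 504 * ∑' m : ℕ, ((ArithmeticFunction.sigma 5 (m + 1) : ℕ) : ℂ) * q ^ (m + 1)

/-- The modular invariant `j(z) = 1728 E_4³ / (E_4³ - E_6²)`. -/
noncomputable def j (z : ℂ) : ℂ :=
  1728 * E4 (Complex.exp (2 * (Real.pi : ℂ) * Complex.I * z)) ^ 3 /
    (E4 (Complex.exp (2 * (Real.pi : ℂ) * Complex.I * z)) ^ 3 - E6 (Complex.exp (2 * (Real.pi : ℂ) * Complex.I * z)) ^ 2)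

/-- The four numbers `exp(2 π i z)`, `j(z)`, `j'(z)`, `j''(z)`. -/
noncomputable def numbers (z : ℂ) : Fin 4 → ℂ :=
  ![Complex.exp (2 * (Real.pi : ℂ) * Complex.I * z), j z, deriv j z, deriv (deriv j) z]

/-- The integral vectors `a = (a_0, …, a_g)` with `|a_i| ≤ T`. -/
noncomputable def box (g T : ℕ) : Finset (Fin (g + 1) → ℤ) := Fintype.piFinset fun _ => Finset.Icc (-(T : ℤ)) (T : ℤ)

/-- The polynomial `a_0 + a_1 x + … + a_g x^g`. -/
noncomputable def poly {g : ℕ} (a : Fin (g + 1) → ℤ) : ℂ[X] := ∑ i, C (a i : ℂ) * X ^ (i : ℕ)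

/-- The roots of the polynomial in the upper half-plane. -/
noncomputable def roots {g : ℕ} (a : Fin (g + 1) → ℤ) : Finset ℂ := by
  classical exact (poly a).roots.toFinset.filter fun z => z ∈ {z : ℂ | 0 < z.im}

/-- The numbers `x q` satisfy no relation of degree at most `k` in each of them with coefficients `∑_{b < k} ξ_b c_b`, where the `c_b` are
integers of a number field of degree at most `k` all of whose conjugates are at most `T ^ k`, except the relations all of whose coefficients
vanish. -/
def NoRelation {Q : Type} [Fintype Q] [DecidableEq Q] (ξ : ℕ → ℂ) (k : ℕ) (T : ℝ) (x : Q → ℂ) : Prop :=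
  ∀ (F : Type) [Field F] [NumberField F], Module.finrank ℚ F ≤ k → ∀ (io : F →+* ℂ)
    (c : (Q → Fin (k + 1)) → Fin k → 𝓞 F), (∀ l b (φ : F →+* ℂ), ‖φ (c l b : F)‖ ≤ T ^ k) →
    ∑ l, (∑ b : Fin k, ξ b * io (c l b : F)) * ∏ q, x q ^ (l q : ℕ) = 0 → ∀ l, ∑ b : Fin k, ξ b * io (c l b : F) = 0

/-- The polynomial with the coefficients `a` has degree `g` and simple roots, and there is no relation between the four numbers at all its roots
in the upper half-plane together. -/
def Good {g : ℕ} (ξ : ℕ → ℂ) (k : ℕ) (T : ℝ) (a : Fin (g + 1) → ℤ) : Prop :=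
  a (Fin.last g) ≠ 0 ∧ (poly a).Separable ∧
    NoRelation ξ k T fun q : {z // z ∈ roots a} × Fin 4 => numbers q.1 q.2

theorem j_eq : j = Pool.Agent.TH21.MS.jj := rfl

theorem isOpen_H : IsOpen {z : ℂ | 0 < z.im} := isOpen_lt continuous_const Complex.continuous_im

theorem preconn_H : IsPreconnected {z : ℂ | 0 < z.im} := (convex_halfSpace_im_gt 0).isPreconnected

theorem an (i : Fin 4) : AnalyticOnNhd ℂ (fun z => numbers z i) {z : ℂ | 0 < z.im} := by
  intro z hz
  have h1 : AnalyticAt ℂ j z := by
    rw [j_eq]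
    exact Pool.Agent.TH21.MS.jj_an z hz
  fin_cases i
  · exact (analyticAt_const.mul analyticAt_id).cexp
  · exact h1
  · exact h1.deriv
  · exact h1.deriv.deriv

/-- the change of the variable: `z ↦ log x / (2 π i)`, `exp(2 π i z) ↦ x` -/
noncomputable def sub : Option (Fin 4) → MvPolynomial (Option (Fin 4)) ℂ
  | none => MvPolynomial.C (2 * (Real.pi : ℂ) * Complex.I)⁻¹ * MvPolynomial.X (some 0)
  | some 0 => MvPolynomial.X none
  | some 1 => MvPolynomial.X (some 1)
  | some 2 => MvPolynomial.C (2 * (Real.pi : ℂ) * Complex.I) * MvPolynomial.X (some 2)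
  | some 3 => MvPolynomial.C ((2 * (Real.pi : ℂ) * Complex.I) ^ 2) * MvPolynomial.X (some 3)

/-- the inverse change -/
noncomputable def bus : Option (Fin 4) → MvPolynomial (Option (Fin 4)) ℂ
  | none => MvPolynomial.X (some 0)
  | some 0 => MvPolynomial.C (2 * (Real.pi : ℂ) * Complex.I) * MvPolynomial.X none
  | some 1 => MvPolynomial.X (some 1)
  | some 2 => MvPolynomial.C (2 * (Real.pi : ℂ) * Complex.I)⁻¹ * MvPolynomial.X (some 2)
  | some 3 => MvPolynomial.C ((2 * (Real.pi : ℂ) * Complex.I) ^ 2)⁻¹ * MvPolynomial.X (some 3)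

theorem sub_bus (P : MvPolynomial (Option (Fin 4)) ℂ) : MvPolynomial.aeval bus (MvPolynomial.aeval sub P) = P := by
  have h0 : (2 * (Real.pi : ℂ) * Complex.I) ≠ 0 := Complex.two_pi_I_ne_zero
  have h1 : (MvPolynomial.aeval (R := ℂ) bus).comp (MvPolynomial.aeval sub) = AlgHom.id ℂ _ := by
    refine MvPolynomial.algHom_ext fun o => ?_
    rw [AlgHom.comp_apply, MvPolynomial.aeval_X, AlgHom.id_apply]
    rcases o with _ | i
    · change (MvPolynomial.aeval bus) (MvPolynomial.C (2 * (Real.pi : ℂ) * Complex.I)⁻¹ * MvPolynomial.X (some 0)) = _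
      rw [map_mul, MvPolynomial.aeval_X, MvPolynomial.algHom_C, MvPolynomial.algebraMap_eq]
      change MvPolynomial.C (2 * (Real.pi : ℂ) * Complex.I)⁻¹ *
        (MvPolynomial.C (2 * (Real.pi : ℂ) * Complex.I) * MvPolynomial.X none) = _
      rw [← mul_assoc, ← MvPolynomial.C_mul, inv_mul_cancel₀ h0, MvPolynomial.C_1, one_mul]
    · fin_cases i
      · simp only [sub, MvPolynomial.aeval_X, bus]
        rfl
      · simp only [sub, MvPolynomial.aeval_X, bus]
        rfl
      · change (MvPolynomial.aeval bus) (MvPolynomial.C (2 * (Real.pi : ℂ) * Complex.I) * MvPolynomial.X (some 2)) = _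
        rw [map_mul, MvPolynomial.aeval_X, MvPolynomial.algHom_C, MvPolynomial.algebraMap_eq]
        change MvPolynomial.C (2 * (Real.pi : ℂ) * Complex.I) *
          (MvPolynomial.C (2 * (Real.pi : ℂ) * Complex.I)⁻¹ * MvPolynomial.X (some 2)) = _
        rw [← mul_assoc, ← MvPolynomial.C_mul, mul_inv_cancel₀ h0, MvPolynomial.C_1, one_mul]
        rfl
      · change (MvPolynomial.aeval bus) (MvPolynomial.C ((2 * (Real.pi : ℂ) * Complex.I) ^ 2) * MvPolynomial.X (some 3)) = _
        rw [map_mul, MvPolynomial.aeval_X, MvPolynomial.algHom_C, MvPolynomial.algebraMap_eq]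
        change MvPolynomial.C ((2 * (Real.pi : ℂ) * Complex.I) ^ 2) *
          (MvPolynomial.C ((2 * (Real.pi : ℂ) * Complex.I) ^ 2)⁻¹ * MvPolynomial.X (some 3)) = _
        rw [← mul_assoc, ← MvPolynomial.C_mul, mul_inv_cancel₀ (pow_ne_zero 2 h0), MvPolynomial.C_1, one_mul]
        rfl
  exact AlgHom.congr_fun h1 P

theorem ind : Pool.Agent.X255.RH.Indep {z : ℂ | 0 < z.im} (fun (i : Fin 4) (z : ℂ) => numbers z i) := by
  refine Pool.Agent.X255.RH.indep_of_aindepS fun P hP => ?_
  have h0 : (2 * (Real.pi : ℂ) * Complex.I) ≠ 0 := Complex.two_pi_I_ne_zero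
  have key : MvPolynomial.aeval sub P = 0 := by
    refine Pool.Agent.Y771.KF.fourC_ind _ fun x hx => ?_
    have hx' := Pool.Agent.Y771.JQ.slit_sub hx
    have h1 := hP (Pool.Agent.Y771.KF.zC x) (Pool.Agent.Y771.JQ.zC_im' x hx'.1 hx'.2)
    rw [← h1]
    have h2 : (MvPolynomial.eval fun o : Option (Fin 4) => o.elim x fun y => Pool.Agent.Y771.KF.fourC x y)
        (MvPolynomial.aeval sub P) = MvPolynomial.eval (fun o => (MvPolynomial.eval fun o : Option (Fin 4) =>
          o.elim x fun y => Pool.Agent.Y771.KF.fourC x y) (sub o)) P :=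
      MvPolynomial.eval₂Hom_bind₁ (RingHom.id ℂ) _ sub P
    rw [h2]
    congr 2
    funext o
    rcases o with _ | i
    · change (MvPolynomial.eval _) (MvPolynomial.C (2 * (Real.pi : ℂ) * Complex.I)⁻¹ * MvPolynomial.X (some 0)) =
        Pool.Agent.Y771.KF.zC x
      rw [map_mul, MvPolynomial.eval_C, MvPolynomial.eval_X]
      change (2 * (Real.pi : ℂ) * Complex.I)⁻¹ * Complex.log x = Complex.log x / (2 * (Real.pi : ℂ) * Complex.I)
      rw [div_eq_inv_mul]
    · fin_cases i
      · change (MvPolynomial.eval _) (MvPolynomial.X none) =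
          Complex.exp (2 * (Real.pi : ℂ) * Complex.I * Pool.Agent.Y771.KF.zC x)
        rw [MvPolynomial.eval_X, Pool.Agent.Y771.JQ.exp_zC hx'.1]
        rfl
      · change (MvPolynomial.eval _) (MvPolynomial.X (some 1)) = j (Pool.Agent.Y771.KF.zC x)
        rw [MvPolynomial.eval_X]
        rfl
      · change (MvPolynomial.eval _) (MvPolynomial.C (2 * (Real.pi : ℂ) * Complex.I) * MvPolynomial.X (some 2)) =
          deriv j (Pool.Agent.Y771.KF.zC x)
        rw [map_mul, MvPolynomial.eval_C, MvPolynomial.eval_X]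
        change (2 * (Real.pi : ℂ) * Complex.I) * (deriv Pool.Agent.TH21.MS.jj (Pool.Agent.Y771.KF.zC x) /
          (2 * (Real.pi : ℂ) * Complex.I)) = _
        rw [mul_div_cancel₀ _ h0]
        rfl
      · change (MvPolynomial.eval _) (MvPolynomial.C ((2 * (Real.pi : ℂ) * Complex.I) ^ 2) * MvPolynomial.X (some 3)) =
          deriv (deriv j) (Pool.Agent.Y771.KF.zC x)
        rw [map_mul, MvPolynomial.eval_C, MvPolynomial.eval_X]
        change ((2 * (Real.pi : ℂ) * Complex.I) ^ 2) * (deriv (deriv Pool.Agent.TH21.MS.jj) (Pool.Agent.Y771.KF.zC x) /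
          (2 * (Real.pi : ℂ) * Complex.I) ^ 2) = _
        rw [mul_div_cancel₀ _ (pow_ne_zero 2 h0)]
        rfl
  rw [← sub_bus P, key, map_zero]

open scoped Classical in
/-- **All roots of almost all polynomials.** For every degree `g ≥ 1` and all complex numbers `ξ_0, ξ_1, …` there is a function `ω(T) → ∞` such
that among the `(2 T + 1)^(g + 1)` integral polynomials with coefficients at most `T` at most the proportion `1 / ω(T)` is not good. -/
theorem result (g : ℕ) (hg : 0 < g) (ξ : ℕ → ℂ) :
    ∃ ω : ℕ → ℕ, Tendsto ω atTop atTop ∧ Monotone ω ∧ ∀ T : ℕ,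
      ω T * ((box g T).filter fun a => ¬ Good ξ (ω T) T a).card ≤ (box g T).card :=
  Pool.Agent.X255.RH.main_all hg preconn_H isOpen_H (fun _ => {z : ℂ | 0 < z.im})
    (fun _ => Pool.Agent.X255.RH.tame_upper) an ind ξ

end Pool.Agent.Results.MP_47914d_nt.PointsAtAllRoots
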